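import Pool.Agent.Y198.DC.Stm

/-!
# Cohen-Macaulay modules of codimension `i + 1` supported on `P_i`
-/

universe u

open CategoryTheory IsLocalRing TensorProduct Pointwise

namespace Pool.Agent.Y404.DC.CM

open H503R3.CC Pool.Agent.Y198.DC

theorem chain {R : Type u} [CommRing R] {S : Set (PrimeSpectrum R)} (s : LTSeries S) (k : ℕ)
    (hk : k ≤ s.length) :
    (s 0).1.asIdeal.height + (k : ℕ∞) ≤ (s ⟨k, by omega⟩).1.asIdeal.height := by
  induction k with
  | zero =>
    simp only [Nat.cast_zero, add_zero]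
    exact le_rfl
  | succ k ih =>
    have h1 := ih (by omega)
    have hlt : s ⟨k, by omega⟩ < s ⟨k + 1, by omega⟩ := s.strictMono (by simp [Fin.lt_def])
    have hlt' : (s ⟨k, by omega⟩).1.asIdeal < (s ⟨k + 1, by omega⟩).1.asIdeal := hlt
    have h2 := Ideal.height_add_one_le_of_lt_of_isPrime hlt'
    rw [Nat.cast_add, Nat.cast_one, ← add_assoc]
    exact le_trans (by gcongr) h2

theorem t : S_CM.{u} := by
  intro R _ _ _ _ n x w h i hi N _ _ _ _ hkill hreg
  have hsupp : ∀ p ∈ Module.support R N, P x w i ≤ p.asIdeal := by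
    intro p hp
    rw [Module.mem_support_iff_of_finite] at hp
    refine le_trans ?_ hp
    intro r hr
    rw [Module.mem_annihilator]
    exact hkill r hr
  have hlow : ∀ p ∈ Module.support R N, ((i + 1 : ℕ) : ℕ∞) ≤ p.asIdeal.height := fun p hp =>
    (h.le_height hi).trans (Ideal.height_mono (hsupp p hp))
  have hd : ((n - i : ℕ) : ℕ∞) ≤ depth R N := by
    have hm : ∀ r ∈ (List.range' (i + 1) (n - i)).map x, r ∈ maximalIdeal R := by
      intro r hr
      simp only [List.mem_map, List.mem_range'_1] at hr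
      obtain ⟨j, hj, rfl⟩ := hr
      exact h.mem_max (by omega)
    have h1 := length_le_depth _ hm
      ((IsLocalRing.isRegular_iff_isWeaklyRegular_of_subset_maximalIdeal hm).mpr hreg)
    simpa using h1
  have hser : ∀ s : LTSeries (Module.support R N),
      (s 0).1.asIdeal.height + (s.length : ℕ∞) ≤ ((n + 1 : ℕ) : ℕ∞) := by
    intro s
    refine (chain s s.length le_rfl).trans ?_
    rw [← h.height_max]
    exact Ideal.height_mono (IsLocalRing.le_maximalIdeal (Ideal.IsPrime.ne_top inferInstance))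
  have hlen : ∀ s : LTSeries (Module.support R N), s.length ≤ n - i := by
    intro s
    have h1 := hser s
    have h2 := hlow _ (s 0).2
    have h3 : ((i + 1 : ℕ) : ℕ∞) + (s.length : ℕ∞) ≤ ((n + 1 : ℕ) : ℕ∞) :=
      le_trans (by gcongr) h1
    have h4 : i + 1 + s.length ≤ n + 1 := by exact_mod_cast h3
    omega
  have hdim : Module.supportDim R N ≤ ((n - i : ℕ) : WithBot ℕ∞) :=
    iSup_le fun s => by exact_mod_cast hlen s
  have hc : ((n - i : ℕ) : WithBot ℕ∞) = (((n - i : ℕ) : ℕ∞) : WithBot ℕ∞) := rfl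
  have hd' : ((n - i : ℕ) : WithBot ℕ∞) ≤ ((depth R N : ℕ∞) : WithBot ℕ∞) := by
    rw [hc]
    exact WithBot.coe_le_coe.mpr hd
  have hle : ((depth R N : ℕ∞) : WithBot ℕ∞) ≤ Module.supportDim R N := depth_le_supportDim
  refine ⟨inferInstance, le_antisymm hle (hdim.trans hd'), le_antisymm ?_ ?_⟩
  · obtain ⟨s, hs⟩ := Order.le_krullDim_iff.mp (hd'.trans hle)
    refine iInf_le_of_le (s 0) ?_
    have h1 := hser s
    have h2 : ((n + 1 : ℕ) : ℕ∞) = ((i + 1 : ℕ) : ℕ∞) + (s.length : ℕ∞) := by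
      rw [← Nat.cast_add]
      congr 1
      omega
    rw [h2] at h1
    exact (ENat.add_le_add_iff_right (by simp)).mp h1
  · refine le_iInf ?_
    rintro ⟨p, hp⟩
    exact hlow p hp

end Pool.Agent.Y404.DC.CM
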